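import Pool.Agent.Helper29.SR.Props
import Pool.Agent.Helper10.RC.Homs

/-!
# MP_b55b7c_an, packet SR-MinC
-/

open scoped ENNReal NNReal InnerProductSpace ComplexOrder
open Filter Topology

attribute [-instance] CStarMatrix.instAlgebra CStarMatrix.instModule CStarMatrix.instSMul
  CStarMatrix.instMulAction CStarMatrix.instDistribMulAction

noncomputable section
namespace RC
universe u

namespace MinCAux

theorem ramp_continuous (s t : ℝ) : Continuous (ramp s t) := by
  unfold ramp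
  fun_prop

theorem ramp_nonneg (s t τ : ℝ) : 0 ≤ ramp s t τ := le_max_left _ _

theorem ramp_le_one (s t τ : ℝ) : ramp s t τ ≤ 1 :=
  max_le zero_le_one (min_le_left _ _)

/-- The function `G`. -/
def GG (s : ℝ) (t : ℝ) : ℝ :=
  max (max (t - s / 2) 0 * max (t - s / 2) 0 - s ^ 2 / 16) 0

theorem GG_continuous (s : ℝ) : Continuous (GG s) := by
  unfold GG
  fun_prop

theorem GG_nonneg (s t : ℝ) : 0 ≤ GG s t := le_max_right _ _

theorem GG_zero {s t : ℝ} (hs : 0 < s) (h : GG s t = 0) : ramp s (2 * s) t = 0 := by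
  have h1 : max (t - s / 2) 0 * max (t - s / 2) 0 - s ^ 2 / 16 ≤ 0 :=
    le_trans (le_max_left _ _) (le_of_eq h)
  have h2 : t ≤ s := by
    by_contra hc
    push Not at hc
    have h3 : s / 2 ≤ max (t - s / 2) 0 := le_max_of_le_left (by linarith)
    nlinarith [mul_self_le_mul_self (by positivity : (0:ℝ) ≤ s / 2) h3]
  unfold ramp
  refine max_eq_left (le_trans (min_le_right _ _) ?_)
  exact div_nonpos_of_nonpos_of_nonneg (by linarith) (by linarith)

variable {M : Type u} [CStarAlgebra M] [PartialOrder M] [StarOrderedRing M]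

omit [PartialOrder M] [StarOrderedRing M] in
theorem cut_eq (c : M) (hc : IsSelfAdjoint c) (s : ℝ) :
    cfc (GG s) c = cut (cut c (s / 2) * cut c (s / 2)) (s ^ 2 / 16) := by
  have h1 : cut c (s / 2) * cut c (s / 2) =
      cfc (fun t : ℝ => max (t - s / 2) 0 * max (t - s / 2) 0) c := by
    unfold cut
    rw [← cfc_mul (fun t : ℝ => max (t - s / 2) 0) (fun t : ℝ => max (t - s / 2) 0) c
      (by fun_prop) (by fun_prop)]
  rw [h1]
  unfold cut
  rw [← cfc_comp (fun t : ℝ => max (t - s ^ 2 / 16) 0)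
    (fun t : ℝ => max (t - s / 2) 0 * max (t - s / 2) 0) c hc (by fun_prop) (by fun_prop)]
  rfl

theorem exists_lower {n : ℕ} (S : Fin n → ℝ) (hS : ∀ i, 0 < S i) :
    ∃ s' : ℝ, 0 < s' ∧ ∀ i, s' ≤ S i := by
  have h : ∀ᶠ x in 𝓝[>] (0 : ℝ), 0 < x ∧ ∀ i, x ≤ S i := by
    refine Filter.Eventually.and self_mem_nhdsWithin (Filter.eventually_all.2 fun i => ?_)
    exact mem_of_superset (Ioc_mem_nhdsGT (hS i)) fun x hx => hx.2
  exact h.exists

end MinCAux

open MinCAux in
theorem minCP (hLoc : LocMaxP.{u}) (hCov : CoverP.{u}) (hCore : CoreP.{u}) (hPass : PassP.{u})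
    (hRk : RkP.{u}) (hMono : QMonoP.{u}) (hLe : CuLeAddP.{u}) : MinCP.{u} := by
  intro M _ _ _ hSR a b m ha hb H ε hε
  have hs : (0 : ℝ) < ε / 8 := by positivity
  -- the cover
  obtain ⟨T, hT⟩ := hCov M M
    (fun X => cfc (ramp (ε / 8) (2 * (ε / 8))) (sq (b * X * a)) - ((m - ε : ℝ) : ℂ) • (1 : M))
    (by
      intro φ
      obtain ⟨X, hX⟩ := hLoc M φ a b m ha hb (by
        intro t ψ₁ ψ₂ σ₁ σ₂ ht0 ht1 h1 h2 _
        have e1 := (H ψ₁ σ₁ h1).2
        have e2 := (H ψ₂ σ₂ h2).1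
        nlinarith [mul_le_mul_of_nonneg_left e1 ht0,
          mul_le_mul_of_nonneg_left e2 (sub_nonneg.2 ht1)]) (ε / 2) (ε / 8) hs (by linarith)
      refine ⟨X, ?_⟩
      rw [map_sub, map_smul, φ.one, Complex.sub_re, smul_eq_mul, mul_one, Complex.ofReal_re]
      linarith)
  -- one element which dominates all of them
  obtain ⟨Y, δ, hδ, hBel⟩ := hCore M hSR a b (ε / 8 / 2) (by positivity) T.card
    (fun i => (T.equivFin.symm i : M))
  have hθ : (0 : ℝ) < (ε / 8) ^ 2 / 16 := by positivity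
  choose S hS hSdim using fun i => hPass M (b * (T.equivFin.symm i : M) * a) (b * Y * a)
    (ε / 8 / 2) δ ((ε / 8) ^ 2 / 16) hδ hθ (hBel i)
  obtain ⟨s', hs', hs'S⟩ := exists_lower S hS
  refine ⟨Y, s', hs', fun φ σ hQ => ?_⟩
  obtain ⟨X, hXT, hXpos⟩ := hT φ
  obtain ⟨i, hi⟩ : ∃ i, (T.equivFin.symm i : M) = X := ⟨T.equivFin ⟨X, hXT⟩, by simp⟩
  have hc : 0 ≤ sq (b * X * a) := star_mul_self_nonneg _
  have h1 := (hRk M φ σ hQ (sq (b * X * a)) hc (ramp (ε / 8) (2 * (ε / 8))) (GG (ε / 8))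
    (ramp_continuous _ _) (GG_continuous _) (ramp_nonneg _ _) (GG_nonneg _)).1
    (ramp_le_one _ _) (fun t ht => GG_zero hs ht)
  rw [cut_eq _ hc.isSelfAdjoint] at h1
  have h2 := hSdim i σ
  rw [hi] at h2
  have h3 : σ.dim (one1 (cut (sq (b * Y * a)) (S i))) ≤ σ.dim (one1 (cut (sq (b * Y * a)) s')) := by
    have hle : cut (sq (b * Y * a)) (S i) ≤ cut (sq (b * Y * a)) s' := by
      refine cfc_le_cfc' _ _ _ (by fun_prop) (by fun_prop) fun t _ => ?_
      have := hs'S i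
      exact max_le_max (by linarith) le_rfl
    have hle1 : one1 (cut (sq (b * Y * a)) (S i)) ≤ one1 (cut (sq (b * Y * a)) s') := by
      have h5 : 0 ≤ one1 (cut (sq (b * Y * a)) s' - cut (sq (b * Y * a)) (S i)) :=
        one1_nonneg (sub_nonneg.2 hle)
      rw [← sub_nonneg]
      exact h5
    refine hMono M σ Unit Unit _ _ (one1_nonneg (cut_nonneg _ _)) (one1_nonneg (cut_nonneg _ _)) ?_
    have h6 := hLe M Unit (one1 (cut (sq (b * Y * a)) (S i))) (one1 (cut (sq (b * Y * a)) s')) 0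
      le_rfl (one1_nonneg (cut_nonneg _ _)) (one1_nonneg (cut_nonneg _ _))
      (by rw [zero_smul, add_zero]; exact hle1)
    rw [cut_zero (one1_nonneg (cut_nonneg _ _))] at h6
    exact h6
  rw [map_sub, map_smul, φ.one, Complex.sub_re, smul_eq_mul, mul_one, Complex.ofReal_re] at hXpos
  linarith

end RC
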